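import Pool.Agent.H61.WL.LD
import Pool.Agent.H69.WD.Usamp

/-! # [H45 WD Cor] the composite numbers are negligible -/

set_option autoImplicit false

namespace Pool.Agent.H45.WD

open Pool.Agent.H30.WD Pool.Agent.H61.WL ArithmeticFunction

private theorem cell_ratio {B j : ℕ} (hj : 2 * B ≤ j) (hj1 : 1 ≤ j) : ((j : ℝ) + 1) ^ B ≤ 2 * (j : ℝ) ^ B := by
  have hj0 : (0 : ℝ) < j := by exact_mod_cast hj1
  have h1 : (1 + 1 / (j : ℝ)) ^ B ≤ 2 := by
    have h2 : (1 + 1 / (j : ℝ)) ≤ Real.exp (1 / (j : ℝ)) := by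
      have := Real.add_one_le_exp (1 / (j : ℝ))
      linarith
    calc (1 + 1 / (j : ℝ)) ^ B ≤ Real.exp (1 / (j : ℝ)) ^ B := pow_le_pow_left₀ (by positivity) h2 B
      _ = Real.exp (B * (1 / (j : ℝ))) := by rw [← Real.exp_nat_mul]
      _ ≤ Real.exp (1 / 2) := by
          apply Real.exp_le_exp.2
          rw [mul_one_div, div_le_div_iff₀ hj0 (by norm_num)]
          have : (2 : ℝ) * B ≤ j := by exact_mod_cast hj
          linarith
      _ ≤ Real.exp (Real.log 2) := by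
          apply Real.exp_le_exp.2
          have := Real.log_two_gt_d9
          linarith
      _ = 2 := Real.exp_log (by norm_num)
  calc ((j : ℝ) + 1) ^ B = (1 + 1 / (j : ℝ)) ^ B * (j : ℝ) ^ B := by
        rw [← mul_pow]
        congr 1
        field_simp
    _ ≤ 2 * (j : ℝ) ^ B := mul_le_mul_of_nonneg_right h1 (by positivity)

private theorem cell_len {B j : ℕ} (hB : 1 ≤ B) (hj1 : 1 ≤ j) :
    ((j : ℝ) ^ B) ^ (1 - 1 / (B : ℝ)) ≤ ((j : ℝ) + 1) ^ B - (j : ℝ) ^ B := by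
  have hj0 : (0 : ℝ) < j := by exact_mod_cast hj1
  have hB0 : (B : ℝ) ≠ 0 := by
    have : B ≠ 0 := by omega
    exact_mod_cast this
  have h1 : ((j : ℝ) ^ B) ^ (1 - 1 / (B : ℝ)) = (j : ℝ) ^ (B - 1) := by
    rw [← Real.rpow_natCast (j : ℝ) B, ← Real.rpow_mul hj0.le, ← Real.rpow_natCast (j : ℝ) (B - 1)]
    congr 1
    rw [Nat.cast_sub hB]
    field_simp
    push_cast
    ring
  rw [h1]
  obtain ⟨k, rfl⟩ : ∃ k, B = k + 1 := ⟨B - 1, by omega⟩
  have h2 : (j : ℝ) ^ k ≤ ((j : ℝ) + 1) ^ k := pow_le_pow_left₀ hj0.le (by linarith) k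
  have h3 : ((j : ℝ) + 1) ^ (k + 1) = ((j : ℝ) + 1) ^ k * j + ((j : ℝ) + 1) ^ k := by ring
  rw [h3, Nat.add_sub_cancel, pow_succ]
  nlinarith [mul_le_mul_of_nonneg_right h2 hj0.le]

theorem dens_cor (β A δ : ℝ) (hβ : 0 < β) (hA : 0 ≤ A) (hδ : 0 < δ) : ∃ B1 : ℕ, 2 ≤ B1 ∧
    ∀ lam : ℝ, 8 < lam → 6 / lam < 1 / (B1 : ℝ) → ∀ ε : ℝ, 0 < ε → ∃ P0 : ℕ, ∀ P : ℕ, P0 ≤ P →
    ∃ Q0 : ℝ, 0 < Q0 ∧ ∀ Q : ℝ, Q0 ≤ Q → ∀ b : ℕ → ℝ, Dn b P β A δ → ∀ f ∈ TV lam Q,
    Summable (fun n : ℕ => if 2 ≤ cardFactors n then ab b n * 2 ^ (cardFactors n) * |f n| else 0) ∧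
    ∑' n : ℕ, (if 2 ≤ cardFactors n then ab b n * 2 ^ (cardFactors n) * |f n| else 0) ≤ ε * nm lam f := by
  obtain ⟨η0, hη0, hLD⟩ := LD hβ (show 0 < A + 1 by linarith) hδ
  obtain ⟨k, hk⟩ := exists_nat_gt (1 / η0)
  obtain ⟨B, hB⟩ : ∃ B, B = k + 2 := ⟨_, rfl⟩
  have hB0 : (0 : ℝ) < B := by
    rw [hB]
    positivity
  have hBη : 1 / (B : ℝ) ≤ η0 := by
    rw [div_le_iff₀ hB0]
    have h1 : 1 / η0 ≤ B := by
      rw [hB]
      push_cast
      linarith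
    rwa [div_le_iff₀ hη0, mul_comm] at h1
  refine ⟨B, by omega, ?_⟩
  intro lam hlam hBl ε hε
  obtain ⟨C, hC, hus⟩ := Pool.Agent.H69.WD.usamp lam hlam B (by omega) hBl
  obtain ⟨P0, hP0⟩ := hLD (1 / (B : ℝ)) (by positivity) hBη (ε / C) (by positivity)
  obtain ⟨J, hJ⟩ : ∃ J, J = max (2 * B) 3 := ⟨_, rfl⟩
  have hJB : 2 * B ≤ J := hJ ▸ le_max_left _ _
  have hJ3 : 3 ≤ J := hJ ▸ le_max_right _ _
  refine ⟨max P0 (max (J ^ B) 3), ?_⟩
  intro P hP
  have hPP0 : P0 ≤ P := (le_max_left _ _).trans hP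
  have hPJ : J ^ B ≤ P := ((le_max_left _ _).trans (le_max_right _ _)).trans hP
  have hP3 : 3 ≤ P := ((le_max_right _ _).trans (le_max_right _ _)).trans hP
  refine ⟨1, one_pos, ?_⟩
  intro Q hQQ b hb f hf
  have hb' : Dn b P β (A + 1) δ := by
    refine ⟨hb.nn, hb.supp, hb.H1, ?_⟩
    intro p
    by_cases h0 : b p = 0
    · rw [h0]
      rcases Nat.eq_zero_or_pos p with rfl | hp
      · simp only [Nat.cast_zero, Real.log_zero]
        exact Real.rpow_nonneg le_rfl _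
      · exact Real.rpow_nonneg (Real.log_nonneg (by exact_mod_cast hp)) _
    · have hp := (hb.supp p h0).2
      have hp1 : 1 ≤ Real.log p := by
        rw [Real.le_log_iff_exp_le (by exact_mod_cast (by omega : 0 < p))]
        have h3 := Real.exp_one_lt_d9
        have h4 : (3 : ℝ) ≤ p := by exact_mod_cast (by omega : 3 ≤ p)
        linarith
      exact (hb.H2 p).trans (Real.rpow_le_rpow_of_exponent_le hp1 (by linarith))
  obtain ⟨W, hW⟩ : ∃ W : ℕ → ℝ, W = fun n => if 2 ≤ cardFactors n then ab b n * 2 ^ (cardFactors n) else 0 := ⟨_, rfl⟩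
  have hW0 : ∀ n, 0 ≤ W n := by
    intro n
    rw [hW]
    simp only
    split_ifs
    · have := ab_nonneg hb.nn n
      positivity
    · exact le_rfl
  have hWs : ∀ n, W n ≠ 0 → J ^ B < n := by
    intro n hn
    rw [hW] at hn
    simp only [ne_eq, ite_eq_right_iff, not_forall] at hn
    obtain ⟨h2, h3⟩ := hn
    have hab : ab b n ≠ 0 := fun h => h3 (by rw [h, zero_mul])
    have hn0 : n ≠ 0 := by
      rintro rfl
      simp at h2
    have hn1 : n ≠ 1 := by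
      rintro rfl
      simp at h2
    have hp := Nat.minFac_prime hn1
    have hbp := ab_ne_zero hab hp (Nat.minFac_dvd n) hn0
    have hpP := (hb.supp _ hbp).2
    have := Nat.minFac_le (Nat.pos_of_ne_zero hn0)
    omega
  have hWc : ∀ j : ℕ, J ≤ j → ∑ n ∈ Finset.Ioc (j ^ B) ((j + 1) ^ B), W n ≤
      ε / C * (((j : ℝ) + 1) ^ B - (j : ℝ) ^ B) / Real.log j ^ 2 := by
    intro j hj
    have hj1 : 1 ≤ j := by omega
    have hj3 : (3 : ℝ) ≤ j := by exact_mod_cast (by omega : 3 ≤ j)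
    have hjp : (j : ℝ) ≤ (j : ℝ) ^ B := by
      calc (j : ℝ) = (j : ℝ) ^ 1 := (pow_one _).symm
        _ ≤ (j : ℝ) ^ B := pow_le_pow_right₀ (by linarith) (by omega)
    have h1 := hP0 P hPP0 b hb' ((j : ℝ) ^ B) ((j : ℝ) ^ B) (((j : ℝ) + 1) ^ B) (by linarith) le_rfl
      (cell_ratio (hJB.trans hj) hj1) (cell_len (by omega) hj1)
    have e1 : ⌊(j : ℝ) ^ B⌋₊ = j ^ B := by
      rw [← Nat.cast_pow, Nat.floor_natCast]
    have e2 : ⌊((j : ℝ) + 1) ^ B⌋₊ = (j + 1) ^ B := by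
      rw [← Nat.cast_succ, ← Nat.cast_pow, Nat.floor_natCast]
    rw [e1, e2, Finset.sum_filter] at h1
    rw [hW]
    refine h1.trans ?_
    have hlen : 0 ≤ ((j : ℝ) + 1) ^ B - (j : ℝ) ^ B :=
      sub_nonneg.2 (pow_le_pow_left₀ (by linarith) (by linarith) B)
    have hlog : 0 < Real.log j := Real.log_pos (by linarith)
    have hlog2 : Real.log j ≤ Real.log ((j : ℝ) ^ B) := Real.log_le_log (by linarith) hjp
    exact div_le_div_of_nonneg_left (mul_nonneg (by positivity) hlen) (by positivity)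
      (pow_le_pow_left₀ hlog.le hlog2 2)
  have h := hus J hJ3 Q hQQ f hf (ε / C) W (by positivity) hW0 hWs hWc
  have e : (fun n : ℕ => W n * |f n|) =
      fun n : ℕ => if 2 ≤ cardFactors n then ab b n * 2 ^ (cardFactors n) * |f n| else 0 := by
    funext n
    rw [hW]
    simp only
    split_ifs
    · rfl
    · rw [zero_mul]
  rw [e, mul_div_cancel₀ _ hC.ne'] at h
  exact h

end Pool.Agent.H45.WD
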